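import Mathlib
import Pool.Agent.H130R4.DADefs
import Pool.Agent.W700.Dau.Fin
import Pool.Agent.W700.Dau.DPC

set_option autoImplicit false

/-!
# The Daugavet property is not preserved by projective tensor products

Let `B` be any real Banach space with the Daugavet property (below `B = C[0,1]`), and let
`X = l_inf^5(B)` and `Y = l_inf-sum, over the 32 sign vectors θ of length 5, of the spaces
A_θ = l_inf^25(B) ⊕_1 B`, the blocks of the first part of `A_θ` being indexed by pairs `(k, l)`.
Finite `l_inf`-sums and `l_1`-sums preserve the Daugavet property, so `X` and `Y` have it.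

Fix `e` in `B` and `e*` in `B*` with `‖e‖ = ‖e*‖ = e*(e) = 1`, put `a_k = e*(x_k)` and consider
`G₀(x, y) = ∑_θ (1/60) ⟨θ, a⟩ e*(g_θ) + (1/1440) ∑_{k,l} (θ_k a_k - θ_l a_l) e*(f_θ^{kl})`.
It has norm one, and it attains its norm at 192 pairs `(x, y)`, `x` running through the vectors
`(x_k e)` with `x` a sign vector, possibly with one coordinate replaced by `0`. Let `u` be the mean
of the corresponding elementary tensors, so `‖u‖ = 1`. An averaging argument shows that a norm-one
bilinear form `G` with `G(u)` close to `1` satisfies `|G(x, y)| ≤ 8/9 + o(1)` for all `x`, `y` in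
the unit balls such that all the second parts `g_θ` of `y` vanish. If `φ = x* ⊗ y*` where `y*` is
the mean of norm-one functionals on the first parts, then `‖I + φ ⊗ u‖ < 2`.
-/

namespace Pool.Agent.Results.MP_2568bd_an.DaugavetTensorFails

open Pool.Agent.H130R4.DA Pool.Agent.W700.Dau

/-- **The Daugavet property is not preserved by projective tensor products.** There are real Banach
spaces `X` and `Y`, each with the Daugavet property, such that the completed projective tensor
product of `X` and `Y` fails the Daugavet property. -/
theorem result : ∃ (X Y : Type) (_ : NormedAddCommGroup X) (_ : NormedSpace ℝ X)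
    (_ : CompleteSpace X) (_ : NormedAddCommGroup Y) (_ : NormedSpace ℝ Y) (_ : CompleteSpace Y),
    DaugavetProperty ℝ X ∧ DaugavetProperty ℝ Y ∧
      ¬ DaugavetProperty ℝ (ProjectiveTensorProduct ℝ X Y) := by
  refine ⟨XX C(unitInterval, ℝ), YY C(unitInterval, ℝ), inferInstance, inferInstance,
    inferInstance, inferInstance, inferInstance, inferInstance, dp_C.pi.daugavet,
    ((dp_C.pi.prodL1 dp_C).pi).daugavet, ?_⟩
  set es : StrongDual ℝ C(unitInterval, ℝ) :=
    LinearMap.mkContinuous
      { toFun := fun f => f 0
        map_add' := fun _ _ => rfl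
        map_smul' := fun _ _ => rfl } 1 (fun f => by
          rw [one_mul]
          exact ContinuousMap.norm_coe_le_norm f 0) with hes
  have h1 : ‖es‖ ≤ 1 := LinearMap.mkContinuous_norm_le _ zero_le_one _
  have h2 : ‖(1 : C(unitInterval, ℝ))‖ = 1 := norm_one
  exact not_daugavet h2 es h1 rfl

end Pool.Agent.Results.MP_2568bd_an.DaugavetTensorFails
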